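import Pool.Agent.J6H92.FQ.Fin

open MeasureTheory
open scoped ENNReal

namespace Pool.Agent.Results.MP_3bca80_gt.MaximalDivisible

/-- `v` lists the vertices of a regular simplex of edge length `√2`. -/
def IsRegularSimplex {V : Type*} [NormedAddCommGroup V] {n : ℕ} (v : Fin (n + 1) → V) : Prop :=
  ∀ i j, i ≠ j → dist (v i) (v j) = √2

/-- The span `W` of all differences of vertices lying in a common block. -/
def blockSpan {V : Type*} [NormedAddCommGroup V] [InnerProductSpace ℝ V] {n k : ℕ}
    (v : Fin (n + 1) → V) (p : Fin (n + 1) → Fin (k + 1)) : Submodule ℝ V :=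
  Submodule.span ℝ {x | ∃ i j, p i = p j ∧ x = v i - v j}

/-- The `d`-dimensional volume of the orthogonal projection of `K` onto the subspace `F`.
Here `μHE[d]` is Mathlib's `d`-dimensional Hausdorff measure, normalised so that it is Lebesgue
measure on `d`-dimensional Euclidean spaces, and `F.starProjection` is the orthogonal
projection onto `F`. -/
noncomputable def projVol {V : Type*} [NormedAddCommGroup V] [InnerProductSpace ℝ V]
    [FiniteDimensional ℝ V] [MeasurableSpace V] [BorelSpace V]
    (d : ℕ) (F : Submodule ℝ V) (K : Set V) : ℝ≥0∞ :=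
  μHE[d] (F.starProjection '' K)

/-- `p` assigns the `n + 1` vertices to `k + 1` blocks and every block has size `ℓ` or `ℓ + 1`,
where `ℓ` is the integer part of `(n + 1) / (k + 1)`. -/
def IsBalanced {n k : ℕ} (p : Fin (n + 1) → Fin (k + 1)) : Prop :=
  ∀ a, (Finset.univ.filter (fun i => p i = a)).card = (n + 1) / (k + 1) ∨
    (Finset.univ.filter (fun i => p i = a)).card = (n + 1) / (k + 1) + 1

/-- Filliman's second conjecture (maximal projections of the regular simplex) holds for all pairs
`(n, k)` such that `k + 1` divides `n + 1`, and it holds up to an explicit factor for all pairs.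

Let `Δ` be a regular simplex with `n + 1` vertices and edge length `√2` in an `n`-dimensional
Euclidean space, let `1 ≤ k ≤ n`, write `n + 1 = (k + 1) ℓ + r` with `0 ≤ r ≤ k`, and let `W` be the
span of the differences inside the blocks of a balanced partition of the vertices into `k + 1`
blocks. Then `W` has dimension `n - k` and
`vol (P_F Δ) ≤ exp (r / (4 ℓ²)) * vol (P_W Δ)` for every `(n - k)`-dimensional subspace `F`.
In particular `vol (P_F Δ) ≤ vol (P_W Δ)` if `k + 1` divides `n + 1`. -/
theorem result {V : Type*} [NormedAddCommGroup V] [InnerProductSpace ℝ V] [FiniteDimensional ℝ V]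
    [MeasurableSpace V] [BorelSpace V] (n k : ℕ) (hV : Module.finrank ℝ V = n)
    (_hk : 1 ≤ k) (hkn : k ≤ n) (v : Fin (n + 1) → V) (hv : IsRegularSimplex v)
    (p : Fin (n + 1) → Fin (k + 1)) (hp : IsBalanced p) :
    Module.finrank ℝ (blockSpan v p) = n - k ∧
    (∀ F : Submodule ℝ V, Module.finrank ℝ F = n - k →
      projVol (n - k) F (convexHull ℝ (Set.range v)) ≤
        ENNReal.ofReal (Real.exp (((n + 1) % (k + 1) : ℕ) /
          (4 * (((n + 1) / (k + 1) : ℕ) : ℝ) ^ 2))) *
        projVol (n - k) (blockSpan v p) (convexHull ℝ (Set.range v))) ∧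
    ((k + 1) ∣ (n + 1) → ∀ F : Submodule ℝ V, Module.finrank ℝ F = n - k →
      projVol (n - k) F (convexHull ℝ (Set.range v)) ≤
        projVol (n - k) (blockSpan v p) (convexHull ℝ (Set.range v))) := by
  have hup : ∀ F : Submodule ℝ V, Module.finrank ℝ F = n - k →
      projVol (n - k) F (convexHull ℝ (Set.range v)) ≤
        ENNReal.ofReal (√((((n : ℝ) + 1) / ((k : ℝ) + 1)) ^ (k + 1)) / (n - k).factorial) :=
    fun F hF => Pool.Agent.J6H92.FQ.proj_bound hV hkn v hv F hF
  have hl : 1 ≤ (n + 1) / (k + 1) := Nat.div_pos (by omega) (by omega)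
  have hsurj : Function.Surjective p := by
    intro a
    have h1 : 0 < (Finset.univ.filter (fun i => p i = a)).card := by
      rcases hp a with h | h <;> omega
    obtain ⟨i, hi⟩ := Finset.card_pos.mp h1
    exact ⟨i, (Finset.mem_filter.mp hi).2⟩
  obtain ⟨h1, h2⟩ := Pool.Agent.J6H92.FQ.proj_block hV hkn v hv p hsurj
  have h3 : ∀ F : Submodule ℝ V, Module.finrank ℝ F = n - k →
      projVol (n - k) F (convexHull ℝ (Set.range v)) ≤
        ENNReal.ofReal (Real.exp (((n + 1) % (k + 1) : ℕ) /
          (4 * (((n + 1) / (k + 1) : ℕ) : ℝ) ^ 2))) *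
        projVol (n - k) (blockSpan v p) (convexHull ℝ (Set.range v)) := by
    intro F hF
    refine (hup F hF).trans ?_
    refine le_trans ?_ (mul_le_mul_right h2 _)
    rw [← ENNReal.ofReal_mul (Real.exp_pos _).le, ← mul_div_assoc]
    apply ENNReal.ofReal_le_ofReal
    exact div_le_div_of_nonneg_right (Pool.Agent.J6H92.FQ.ratio hkn p hp) (by positivity)
  refine ⟨h1, h3, fun hdvd F hF => ?_⟩
  have h4 := h3 F hF
  rw [Nat.mod_eq_zero_of_dvd hdvd, Nat.cast_zero, zero_div, Real.exp_zero, ENNReal.ofReal_one,
    one_mul] at h4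
  exact h4

end Pool.Agent.Results.MP_3bca80_gt.MaximalDivisible
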